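import Pool.Agent.helper48.RP.PC2

/-! # Row PC1 of project RP: rotation invariant partitions and periods -/

set_option autoImplicit false

open Polynomial Filter
open Pool.Agent.QU

namespace Pool.Agent.RP

/-- the partition in the residue classes modulo `d` -/
def PC1_c (n d : ℕ) (i : Fin n) : Fin n := ⟨(i : ℕ) % d, (Nat.mod_le _ _).trans_lt i.isLt⟩

lemma PC1_ofNat (n : ℕ) [NeZero n] (i : ℕ) : ((Fin.ofNat n i : Fin n) : ℕ) = i % n := by
  simp [Fin.ofNat]

lemma PC1_lt {n : ℕ} [NeZero n] (i : ℕ) (hi : i < n) : Fin.ofNat n i = ⟨i, hi⟩ := by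
  apply Fin.ext
  rw [PC1_ofNat]
  exact Nat.mod_eq_of_lt hi

lemma PC1_add_one {n : ℕ} [NeZero n] (i : ℕ) : Fin.ofNat n i + 1 = Fin.ofNat n (i + 1) := by
  rw [PC2_ofNat_add]
  rfl

/-- the shifted equality -/
lemma PC1_shift {n : ℕ} [NeZero n] (w : Fin n → Ltr) (c : Fin n → Fin n) (h : Rot w c) (i j : ℕ)
    (hij : c (Fin.ofNat n i) = c (Fin.ofNat n j)) (k : ℕ) :
    c (Fin.ofNat n (i + k)) = c (Fin.ofNat n (j + k)) := by
  induction k with
  | zero => exact hij
  | succ k ih =>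
    have h1 := (h _ _ ih).2
    rw [PC1_add_one, PC1_add_one] at h1
    exact h1

lemma PC1_canrot {n : ℕ} [NeZero n] (w : Fin n → Ltr) (d : ℕ) (hd : d ∣ n)
    (hp : Function.Periodic (PC2_W w) d) : Can (PC1_c n d) ∧ Rot w (PC1_c n d) := by
  constructor
  · intro i
    constructor
    · exact Nat.mod_le _ _
    · apply Fin.ext
      exact Nat.mod_mod _ _
  · intro i j hij
    have h1 : (i : ℕ) % d = (j : ℕ) % d := congrArg Fin.val hij
    constructor
    · have h2 : PC2_W w (i : ℕ) = PC2_W w (j : ℕ) := by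
        rw [← hp.map_mod_nat (i : ℕ), h1, hp.map_mod_nat]
      unfold PC2_W at h2
      rw [PC2_ofNat_val, PC2_ofNat_val] at h2
      exact h2
    · apply Fin.ext
      change ((i + 1 : Fin n) : ℕ) % d = ((j + 1 : Fin n) : ℕ) % d
      have key : ∀ i : Fin n, ((i + 1 : Fin n) : ℕ) % d = ((i : ℕ) % d + 1) % d := by
        intro i
        have e1 : i + 1 = Fin.ofNat n ((i : ℕ) + 1) := by
          rw [← PC1_add_one, PC2_ofNat_val]
        rw [e1, PC1_ofNat, Nat.mod_mod_of_dvd _ hd, Nat.mod_add_mod]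
      rw [key i, key j, h1]

lemma PC1_surj {n : ℕ} [NeZero n] (w : Fin n → Ltr) (c : Fin n → Fin n) (h1 : Can c)
    (h2 : Rot w c) : ∃ d : ℕ, d ∣ n ∧ Function.Periodic (PC2_W w) d ∧ PC1_c n d = c := by
  have hn : 0 < n := Nat.pos_of_ne_zero (NeZero.ne n)
  have hper : ∀ i, Fin.ofNat n (i + n) = Fin.ofNat n i := by
    intro i
    apply Fin.ext
    rw [PC1_ofNat, PC1_ofNat, Nat.add_mod_right]
  have hex : ∃ d : ℕ, 1 ≤ d ∧ c (Fin.ofNat n d) = c (Fin.ofNat n 0) := by
    refine ⟨n, hn, ?_⟩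
    have := hper 0
    rw [zero_add] at this
    rw [this]
  classical
  obtain ⟨hd1, hd2⟩ := Nat.find_spec hex
  have hmin : ∀ m : ℕ, m < Nat.find hex → c (Fin.ofNat n m) = c (Fin.ofNat n 0) → m = 0 := by
    intro m hm hc
    by_contra hne
    exact Nat.find_min hex hm ⟨Nat.one_le_iff_ne_zero.2 hne, hc⟩
  generalize Nat.find hex = d at hd1 hd2 hmin
  have hpd : Function.Periodic (fun i : ℕ => c (Fin.ofNat n i)) d := by
    intro k
    have := PC1_shift w c h2 d 0 hd2 k
    rw [zero_add, Nat.add_comm] at this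
    exact this
  have hdn : d ∣ n := by
    apply Nat.dvd_of_mod_eq_zero
    apply hmin _ (Nat.mod_lt _ hd1)
    have e1 : c (Fin.ofNat n (n % d)) = c (Fin.ofNat n n) := hpd.map_mod_nat n
    rw [e1]
    have := hper 0
    rw [zero_add] at this
    rw [this]
  have hle : d ≤ n := Nat.le_of_dvd hn hdn
  have hsmall : ∀ i : ℕ, ∀ hi : i < d, c (Fin.ofNat n i) = ⟨i, hi.trans_le hle⟩ := by
    intro i hi
    have hin : i < n := hi.trans_le hle
    obtain ⟨a1, a2⟩ := h1 (Fin.ofNat n i)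
    have a1' : ((c (Fin.ofNat n i) : Fin n) : ℕ) ≤ i := by
      have : ((c (Fin.ofNat n i) : Fin n) : ℕ) ≤ ((Fin.ofNat n i : Fin n) : ℕ) := a1
      rw [PC1_ofNat, Nat.mod_eq_of_lt hin] at this
      exact this
    set j : ℕ := ((c (Fin.ofNat n i) : Fin n) : ℕ) with hj
    have hjn : j < n := a1'.trans_lt hin
    have e1 : c (Fin.ofNat n i) = Fin.ofNat n j := by rw [hj, PC2_ofNat_val]
    rw [e1] at a2
    have a3 : c (Fin.ofNat n i) = c (Fin.ofNat n j) := by rw [a2, e1]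
    have a4 := PC1_shift w c h2 i j a3 (n - j)
    have e2 : i + (n - j) = (i - j) + n := by omega
    have e3 : j + (n - j) = 0 + n := by omega
    rw [e2, e3, hper, hper] at a4
    have a5 := hmin (i - j) (by omega) a4
    have a6 : j = i := by omega
    apply Fin.ext
    change j = i
    omega
  refine ⟨d, hdn, ?_, ?_⟩
  · intro k
    have h3 := (h2 _ _ (hpd k)).1
    exact h3
  · funext i
    have e1 : c (Fin.ofNat n ((i : ℕ) % d)) = c (Fin.ofNat n (i : ℕ)) := hpd.map_mod_nat (i : ℕ)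
    rw [hsmall _ (Nat.mod_lt _ hd1), PC2_ofNat_val] at e1
    exact e1

theorem PC1 : PC1_stmt := by
  intro n _ w
  have hn : 0 < n := Nat.pos_of_ne_zero (NeZero.ne n)
  symm
  refine Finset.card_bij (fun d _ => PC1_c n d) ?_ ?_ ?_
  · intro d hd
    rw [Finset.mem_filter, Nat.mem_divisors] at hd
    rw [Finset.mem_filter]
    exact ⟨Finset.mem_univ _, PC1_canrot w d hd.1.1 ((PC2_period w d).1 hd.2)⟩
  · have key : ∀ d d' : ℕ, d ∣ n → d' ∣ n → d < d' → PC1_c n d ≠ PC1_c n d' := by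
      intro d d' h1 h2 hlt he
      have hle : d' ≤ n := Nat.le_of_dvd hn h2
      have hd0 : 0 < d := Nat.pos_of_dvd_of_pos h1 hn
      have h3 := congrArg Fin.val (congrFun he ⟨d, hlt.trans_le hle⟩)
      unfold PC1_c at h3
      simp only [Nat.mod_self, Nat.mod_eq_of_lt hlt] at h3
      omega
    intro d hd d' hd' he
    rw [Finset.mem_filter, Nat.mem_divisors] at hd hd'
    rcases lt_trichotomy d d' with h | h | h
    · exact absurd he (key d d' hd.1.1 hd'.1.1 h)
    · exact h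
    · exact absurd he.symm (key d' d hd'.1.1 hd.1.1 h)
  · intro c hc
    rw [Finset.mem_filter] at hc
    obtain ⟨d, h1, h2, h3⟩ := PC1_surj w c hc.2.1 hc.2.2
    refine ⟨d, ?_, h3⟩
    rw [Finset.mem_filter, Nat.mem_divisors]
    exact ⟨⟨h1, hn.ne'⟩, (PC2_period w d).2 h2⟩

end Pool.Agent.RP
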