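import Pool.Agent.helper48.RP.PC1

/-! # Row PRD of project RP: rotation invariant partitions are consistent, with as many edges as vertices -/

set_option autoImplicit false

open Polynomial Filter
open Pool.Agent.QU

namespace Pool.Agent.RP

lemma PRD_linv (l : Ltr) : linv (linv l) = l := by
  unfold linv
  simp

/-- backwards -/
lemma PRD_back {n : ℕ} [NeZero n] (w : Fin n → Ltr) (c : Fin n → Fin n) (h : Rot w c) (i j : Fin n)
    (hij : c (i + 1) = c (j + 1)) : c i = c j := by
  have hn : 0 < n := Nat.pos_of_ne_zero (NeZero.ne n)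
  have e : ∀ i : Fin n, i + 1 = Fin.ofNat n ((i : ℕ) + 1) := by
    intro i
    rw [← PC1_add_one, PC2_ofNat_val]
  rw [e i, e j] at hij
  have h1 := PC1_shift w c h _ _ hij (n - 1)
  have e2 : ∀ i : Fin n, Fin.ofNat n ((i : ℕ) + 1 + (n - 1)) = i := by
    intro i
    have : (i : ℕ) + 1 + (n - 1) = (i : ℕ) + n := by omega
    rw [this]
    apply Fin.ext
    rw [PC1_ofNat, Nat.add_mod_right, Nat.mod_eq_of_lt i.isLt]
  rw [e2 i, e2 j] at h1
  exact h1

/-- two steps with the same generator -/
lemma PRD_cases {n : ℕ} [NeZero n] (w : Fin n → Ltr) (c : Fin n → Fin n) (hC : CR w) (h : Rot w c)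
    (i j : Fin n) (hx : (pr w c i).1 = (pr w c j).1) :
    ((pr w c i).2.1 = (pr w c j).2.1 ↔ c i = c j) ∧ ((pr w c i).2.2 = (pr w c j).2.2 ↔ c i = c j) := by
  have hx' : (w i).1 = (w j).1 := by
    unfold pr at hx
    split_ifs at hx <;> exact hx
  have hb : c (i + 1) = c (j + 1) ↔ c i = c j := ⟨PRD_back w c h i j, fun he => (h i j he).2⟩
  have hopp : w i = linv (w j) → c (i + 1) ≠ c j ∧ c i ≠ c (j + 1) := by
    intro ho
    constructor
    · intro he
      have h1 := (h _ _ he).1
      apply hC i
      rw [h1]
      exact ho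
    · intro he
      have h1 := (h _ _ he).1
      apply hC j
      rw [← h1, ho, PRD_linv]
  have hno : w i = linv (w j) → c i ≠ c j := by
    intro ho he
    have h1 := (h _ _ he).1
    rw [h1] at ho
    have h2 := congrArg Prod.snd ho
    unfold linv at h2
    simp at h2
  cases hi : (w i).2 <;> cases hj : (w j).2
  · simp only [pr, hi, hj, Bool.false_eq_true, if_false]
    exact ⟨trivial, hb⟩
  · have ho : w i = linv (w j) := by
      unfold linv
      refine Prod.ext hx' ?_
      simp [hi, hj]
    have h1 := hopp ho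
    have h2 := hno ho
    simp only [pr, hi, hj, Bool.false_eq_true, if_false, if_true]
    exact ⟨⟨fun he => absurd he h1.2, fun he => absurd he h2⟩, ⟨fun he => absurd he h1.1, fun he => absurd he h2⟩⟩
  · have ho : w i = linv (w j) := by
      unfold linv
      refine Prod.ext hx' ?_
      simp [hi, hj]
    have h1 := hopp ho
    have h2 := hno ho
    simp only [pr, hi, hj, Bool.false_eq_true, if_false, if_true]
    exact ⟨⟨fun he => absurd he h1.1, fun he => absurd he h2⟩, ⟨fun he => absurd he h1.2, fun he => absurd he h2⟩⟩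
  · simp only [pr, hi, hj, if_true]
    exact ⟨hb, trivial⟩

lemma PRD_card {n : ℕ} {α β : Type} [DecidableEq α] [DecidableEq β] [Nonempty β] (f : Fin n → α) (g : Fin n → β)
    (h : ∀ i j, f i = f j → g i = g j) : (Finset.univ.image g).card ≤ (Finset.univ.image f).card := by
  have hf : Function.FactorsThrough g f := fun i j hij => h i j hij
  obtain ⟨e, he⟩ := (Function.factorsThrough_iff g).1 hf
  have : Finset.univ.image g = (Finset.univ.image f).image e := by
    rw [Finset.image_image, ← he]
  rw [this]
  exact Finset.card_image_le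

theorem PRD : PRD_stmt := by
  intro n _ w c hC h
  constructor
  · intro i j hx
    have h1 := PRD_cases w c hC h i j hx
    exact h1.1.trans h1.2.symm
  · have h1 : nv c = (edg w c).card := by
      unfold nv edg
      have : Nonempty (Fin 2 × Fin n × Fin n) := ⟨(0, 0, 0)⟩
      have : Nonempty (Fin n) := ⟨0⟩
      refine le_antisymm (PRD_card (pr w c) c ?_) (PRD_card c (pr w c) ?_)
      · intro i j hij
        exact (PRD_cases w c hC h i j (by rw [hij])).1.1 (by rw [hij])
      · intro i j hij
        obtain ⟨h2, h3⟩ := h i j hij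
        unfold pr
        rw [h2, h3, hij]
    rw [h1]
    unfold nex
    rw [Finset.card_eq_sum_card_fiberwise (f := fun e : Fin 2 × Fin n × Fin n => e.1)
      (t := (Finset.univ : Finset (Fin 2))) (fun _ _ => Finset.mem_coe.2 (Finset.mem_univ _)), Fin.sum_univ_two]

end Pool.Agent.RP
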