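import Pool.Agent.helper62.RP.Spec

/-! # Row PC2 of project RP: a cyclically reduced word is a `k`-th power iff it has period `n / k` -/

set_option autoImplicit false

open Polynomial Filter
open Pool.Agent.QU

namespace Pool.Agent.RP

/-- the periodic extension of the word -/
def PC2_W {n : ℕ} [NeZero n] (w : Fin n → Ltr) (i : ℕ) : Ltr := w (Fin.ofNat n i)

lemma PC2_ofNat_add (n : ℕ) [NeZero n] (i d : ℕ) :
    Fin.ofNat n (i + d) = Fin.ofNat n i + Fin.ofNat n d := by
  apply Fin.ext
  simp [Fin.ofNat, Fin.val_add, Nat.add_mod]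

lemma PC2_ofNat_val {n : ℕ} [NeZero n] (i : Fin n) : Fin.ofNat n (i : ℕ) = i := by
  apply Fin.ext
  simp [Fin.ofNat, Nat.mod_eq_of_lt i.isLt]

lemma PC2_period {n : ℕ} [NeZero n] (w : Fin n → Ltr) (d : ℕ) :
    (∀ i : Fin n, w (i + Fin.ofNat n d) = w i) ↔ Function.Periodic (PC2_W w) d := by
  constructor
  · intro h i
    unfold PC2_W
    rw [PC2_ofNat_add]
    exact h _
  · intro h i
    have h1 := h (i : ℕ)
    unfold PC2_W at h1
    rw [PC2_ofNat_add, PC2_ofNat_val] at h1
    exact h1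

lemma PC2_get {n : ℕ} [NeZero n] (w : Fin n → Ltr) (i : ℕ) (hi : i < n) :
    (List.ofFn w)[i]? = some (PC2_W w i) := by
  rw [List.getElem?_ofFn, dif_pos hi]
  unfold PC2_W
  congr 2
  apply Fin.ext
  simp [Fin.ofNat, Nat.mod_eq_of_lt hi]

lemma PC2_flat {α : Type} (cc : List α) (k i : ℕ) (hi : i < k * cc.length) :
    ((List.replicate k cc).flatten)[i]? = cc[i % cc.length]? := by
  induction k generalizing i with
  | zero => simp at hi
  | succ k ih =>
    rw [List.replicate_succ, List.flatten_cons, List.getElem?_append]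
    by_cases h : i < cc.length
    · rw [if_pos h, Nat.mod_eq_of_lt h]
    · rw [if_neg h]
      have h' : cc.length ≤ i := not_lt.1 h
      rw [ih (i - cc.length) (by rw [Nat.succ_mul] at hi; omega), Nat.mod_eq_sub_mod h']

lemma PC2_reduced {n : ℕ} [NeZero n] (w : Fin n → Ltr) (h : CR w) :
    FreeGroup.IsReduced (List.ofFn w) := by
  unfold FreeGroup.IsReduced
  rw [List.isChain_ofFn]
  intro i hi e1
  have h1 := h ⟨i, by omega⟩
  have e : (⟨i, by omega⟩ : Fin n) + 1 = ⟨i + 1, hi⟩ := by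
    apply Fin.ext
    rw [Fin.val_add]
    have hn : 1 < n := by omega
    have : ((1 : Fin n) : ℕ) = 1 := by
      rw [Fin.val_one']
      exact Nat.mod_eq_of_lt hn
    rw [this]
    exact Nat.mod_eq_of_lt hi
  rw [e] at h1
  by_contra hne
  apply h1
  unfold linv
  refine Prod.ext e1 ?_
  simp only
  cases h2 : (w ⟨i, by omega⟩).2 <;> cases h3 : (w ⟨i + 1, hi⟩).2 <;> simp_all

lemma PC2_conj {n : ℕ} [NeZero n] (w : Fin n → Ltr) (h : CR w) (c M : List Ltr)
    (he : List.ofFn w = c ++ M ++ FreeGroup.invRev c) : c = [] := by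
  cases c with
  | nil => rfl
  | cons a t =>
    exfalso
    have hn : 0 < n := Nat.pos_of_ne_zero (NeZero.ne n)
    have hlen : n = (t.length + 1) + M.length + (t.length + 1) := by
      have := congrArg List.length he
      simp at this
      omega
    have h0 : (List.ofFn w)[0]? = some a := by
      rw [he]
      simp
    have h1 : (List.ofFn w)[n - 1]? = some (linv a) := by
      rw [he, FreeGroup.invRev_cons, ← List.append_assoc, List.getElem?_append]
      have e1 : ((a :: t) ++ M ++ FreeGroup.invRev t).length = n - 1 := by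
        simp
        omega
      rw [if_neg (by rw [e1]; omega), e1, Nat.sub_self]
      simp [FreeGroup.invRev, linv]
    rw [PC2_get w 0 hn] at h0
    rw [PC2_get w (n - 1) (by omega)] at h1
    have h2 := h (Fin.ofNat n (n - 1))
    have e2 : Fin.ofNat n (n - 1) + 1 = Fin.ofNat n 0 := by
      have e3 : (1 : Fin n) = Fin.ofNat n 1 := rfl
      rw [e3, ← PC2_ofNat_add, Nat.sub_add_cancel hn]
      apply Fin.ext
      simp [Fin.ofNat]
    rw [e2] at h2
    apply h2
    unfold PC2_W at h0 h1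
    rw [Option.some.inj h0, Option.some.inj h1]

lemma PC2_pow {n : ℕ} [NeZero n] (w : Fin n → Ltr) (h : CR w) (k : ℕ) (hk : 1 ≤ k) (v : F2)
    (hv : v ^ k = FreeGroup.mk (List.ofFn w)) : k ∣ n ∧ Function.Periodic (PC2_W w) (n / k) := by
  have hn : 0 < n := Nat.pos_of_ne_zero (NeZero.ne n)
  have h1 := congrArg FreeGroup.toWord hv
  rw [FreeGroup.toWord_pow, FreeGroup.toWord_mk, (PC2_reduced w h).reduce_eq,
    FreeGroup.reduceCyclically.reduce_flatten_replicate FreeGroup.isReduced_toWord,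
    if_neg (by omega)] at h1
  have h2 := PC2_conj w h _ _ h1.symm
  rw [h2] at h1
  simp only [List.nil_append, FreeGroup.invRev_empty, List.append_nil] at h1
  set cc := FreeGroup.reduceCyclically v.toWord with hc
  have hlen : k * cc.length = n := by
    have := congrArg List.length h1
    simpa using this
  have hdvd : k ∣ n := ⟨cc.length, hlen.symm⟩
  have hd : n / k = cc.length := by
    rw [← hlen]
    exact Nat.mul_div_cancel_left _ (by omega)
  refine ⟨hdvd, ?_⟩
  rw [hd]
  have hper : Function.Periodic (PC2_W w) n := by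
    intro i
    unfold PC2_W
    congr 1
    apply Fin.ext
    simp [Fin.ofNat]
  have hcn : cc.length ∣ n := ⟨k, by rw [← hlen, mul_comm]⟩
  have key : ∀ i : ℕ, some (PC2_W w i) = cc[i % cc.length]? := by
    intro i
    rw [← hper.map_mod_nat i, ← PC2_get w (i % n) (Nat.mod_lt _ hn), ← h1,
      PC2_flat cc k (i % n) (by rw [hlen]; exact Nat.mod_lt _ hn), Nat.mod_mod_of_dvd _ hcn]
  intro i
  have h3 := key (i + cc.length)
  rw [Nat.add_mod_right, ← key i] at h3
  exact Option.some.inj h3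

lemma PC2_back {n : ℕ} [NeZero n] (w : Fin n → Ltr) (d : ℕ) (hd : d ∣ n)
    (hp : Function.Periodic (PC2_W w) d) : ∃ v : F2, v ^ (n / d) = FreeGroup.mk (List.ofFn w) := by
  have hn : 0 < n := Nat.pos_of_ne_zero (NeZero.ne n)
  have hd0 : 0 < d := Nat.pos_of_dvd_of_pos hd hn
  have hdn : d ≤ n := Nat.le_of_dvd hn hd
  refine ⟨FreeGroup.mk ((List.ofFn w).take d), ?_⟩
  rw [FreeGroup.pow_mk]
  congr 1
  have hl : ((List.ofFn w).take d).length = d := by simp [hdn]
  have hmul : n / d * d = n := Nat.div_mul_cancel hd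
  apply List.ext_getElem?
  intro i
  by_cases hi : i < n
  · rw [PC2_flat _ _ _ (by rw [hl, hmul]; exact hi), hl, List.getElem?_take,
      if_pos (Nat.mod_lt _ hd0), PC2_get w _ ((Nat.mod_lt _ hd0).trans_le hdn), PC2_get w i hi,
      hp.map_mod_nat i]
  · rw [List.getElem?_eq_none (by simp [hl, hmul]; omega), List.getElem?_eq_none (by simp; omega)]

theorem PC2 : PC2_stmt := by
  intro n ℓ _ w h hℓ
  have hn : 0 < n := Nat.pos_of_ne_zero (NeZero.ne n)
  unfold dv
  refine Finset.card_nbij' (fun k => n / k) (fun d => n / d) ?_ ?_ ?_ ?_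
  · intro k hk
    simp only [Finset.coe_filter, Finset.mem_Icc, Set.mem_ofPred_eq] at hk
    obtain ⟨⟨hk1, hk2⟩, v, hv⟩ := hk
    obtain ⟨h1, h2⟩ := PC2_pow w h k hk1 v hv
    simp only [Finset.coe_filter, Nat.mem_divisors, Set.mem_ofPred_eq]
    exact ⟨⟨Nat.div_dvd_of_dvd h1, hn.ne'⟩, (PC2_period w _).2 h2⟩
  · intro d hd
    simp only [Finset.coe_filter, Nat.mem_divisors, Set.mem_ofPred_eq] at hd
    obtain ⟨⟨hd1, _⟩, hd2⟩ := hd
    simp only [Finset.coe_filter, Finset.mem_Icc, Set.mem_ofPred_eq]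
    refine ⟨⟨Nat.div_pos (Nat.le_of_dvd hn hd1) (Nat.pos_of_dvd_of_pos hd1 hn),
      (Nat.div_le_self _ _).trans hℓ⟩, PC2_back w d hd1 ((PC2_period w d).1 hd2)⟩
  · intro k hk
    simp only [Finset.coe_filter, Finset.mem_Icc, Set.mem_ofPred_eq] at hk
    obtain ⟨⟨hk1, hk2⟩, v, hv⟩ := hk
    obtain ⟨h1, h2⟩ := PC2_pow w h k hk1 v hv
    exact Nat.div_div_self h1 hn.ne'
  · intro d hd
    simp only [Finset.coe_filter, Nat.mem_divisors, Set.mem_ofPred_eq] at hd
    exact Nat.div_div_self hd.1.1 hn.ne'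

end Pool.Agent.RP
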